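import Pool.Agent.TH856.KL.Final
import Pool.Agent.TH856.SP.Parts

/-! The asymptotic parts (4)-(6). -/

set_option autoImplicit false

open Filter Topology

namespace Pool.Agent.TH856.KL

open Module Submodule
open Pool.Agent.H818R2 Pool.Agent.H161R2.KissSym Pool.Agent.TH856.SP Pool.Agent.W967.LI

theorem sin_pos' : 0 < Real.sin (Real.pi / 3 / 2) := by rw [sin_kiss]; norm_num

theorem bdd : IsBoundedUnder (· ≤ ·) atTop (fun d : ℕ => Real.logb 2 (kissing d) / d) :=
  ⟨_, eventually_map.2 (Eventually.of_forall (fun d => codeRate_le sin_pos' d))⟩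

theorem cplus_ge : 83 / 400 ≤ cplus := by
  unfold cplus
  apply le_limsup_of_frequently_le _ bdd
  apply Eventually.frequently
  filter_upwards [eventually_gt_atTop 0] with d hd
  have hd' : (0 : ℝ) < d := by exact_mod_cast hd
  have h1 := wyner' d hd
  have h0 : (0 : ℝ) < kissing d := lt_of_lt_of_le (by positivity) h1
  rw [le_div_iff₀ hd', Real.le_logb_iff_rpow_le (by norm_num) h0]
  exact h1

/-- uniform bound for the kissing numbers of the dimensions up to `n` -/
theorem kiss_unif (ε : ℝ) (hε : 0 < ε) : ∀ᶠ n : ℕ in atTop, ∀ K : ℕ, K ≤ n →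
    (kissing K : ℝ) ≤ (2 : ℝ) ^ (cplus * K + ε * n) := by
  have hc := cplus_ge
  have hlt : ∀ᶠ d : ℕ in atTop, Real.logb 2 (kissing d) / d < cplus + ε :=
    eventually_lt_of_limsup_lt (by unfold cplus; linarith) bdd
  obtain ⟨k0, hk0⟩ := eventually_atTop.1 hlt
  -- a bound for the small dimensions
  have hr : (1 : ℝ) < 2 ^ ε := Real.one_lt_rpow (by norm_num) hε
  have h1 : Tendsto (fun n : ℕ => ((2 : ℝ) ^ ε) ^ n) atTop atTop := tendsto_pow_atTop_atTop_of_one_lt hr
  have h2 := h1.eventually (eventually_ge_atTop (kissing (k0 + 1) : ℝ))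
  filter_upwards [h2] with n hn K hK
  rcases le_or_gt K (k0 + 1) with hK1 | hK1
  · have h3 : (kissing K : ℝ) ≤ kissing (k0 + 1) := by exact_mod_cast kissing_mono hK1
    calc (kissing K : ℝ) ≤ kissing (k0 + 1) := h3
      _ ≤ ((2 : ℝ) ^ ε) ^ n := hn
      _ = (2 : ℝ) ^ (ε * n) := by rw [Real.rpow_mul (by norm_num), Real.rpow_natCast]
      _ ≤ _ := by
          apply Real.rpow_le_rpow_of_exponent_le (by norm_num)
          have : 0 ≤ cplus * K := by positivity
          linarith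
  · have hd' : (0 : ℝ) < K := by
      have : 0 < K := by omega
      exact_mod_cast this
    have h3 := hk0 K (by omega)
    rw [div_lt_iff₀ hd'] at h3
    have hKn : (K : ℝ) ≤ n := by exact_mod_cast hK
    rcases Nat.eq_zero_or_pos (kissing K) with h | h
    · rw [h]
      simp only [Nat.cast_zero]
      positivity
    · rw [← Real.logb_le_iff_le_rpow (by norm_num) (by exact_mod_cast h)]
      nlinarith

theorem poly8 {a : ℝ} (ha : 0 < a) :
    ∀ᶠ n : ℕ in atTop, ((n : ℝ) + 2) ^ 5 * (2 * n + 1) ^ 3 ≤ (2 : ℝ) ^ (a * n) := by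
  have hr : (1 : ℝ) < 2 ^ a := Real.one_lt_rpow (by norm_num) ha
  have h := tendsto_pow_const_div_const_pow_of_one_lt 8 hr
  have h2 := h.eventually (gt_mem_nhds (show (0 : ℝ) < 1 / 6561 by norm_num))
  filter_upwards [h2, eventually_ge_atTop 1] with n hn hn1
  have hp : (0 : ℝ) < (2 ^ a) ^ n := by positivity
  rw [div_lt_iff₀ hp] at hn
  have h5 : (1 : ℝ) ≤ n := by exact_mod_cast hn1
  have h3 : ((n : ℝ) + 2) ^ 5 * (2 * n + 1) ^ 3 ≤ 6561 * (n : ℝ) ^ 8 := by
    calc ((n : ℝ) + 2) ^ 5 * (2 * n + 1) ^ 3 ≤ (3 * n) ^ 5 * (3 * n) ^ 3 := by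
          apply mul_le_mul
          · apply pow_le_pow_left₀ (by positivity); linarith
          · apply pow_le_pow_left₀ (by positivity); linarith
          · positivity
          · positivity
      _ = _ := by ring
  have h4 : (2 : ℝ) ^ (a * n) = (2 ^ a) ^ n := by
    rw [Real.rpow_mul (by norm_num), Real.rpow_natCast]
  rw [h4]
  linarith

/-- the factor common to (1) and (2) -/
theorem factor (ε : ℝ) (hε : 0 < ε) : ∀ᶠ n : ℕ in atTop, ∀ m K : ℕ, m ≤ n → K ≤ n →
    ((m : ℝ) + 2) ^ 5 * (2 * n + 1) ^ 3 * kissing K ≤ (2 : ℝ) ^ (cplus * K + ε * n) := by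
  filter_upwards [kiss_unif (ε / 2) (by positivity), poly8 (a := ε / 2) (by positivity)]
    with n h1 h2 m K hm hK
  have hm' : (m : ℝ) ≤ n := by exact_mod_cast hm
  calc ((m : ℝ) + 2) ^ 5 * (2 * n + 1) ^ 3 * kissing K
      ≤ ((n : ℝ) + 2) ^ 5 * (2 * n + 1) ^ 3 * kissing K := by
        apply mul_le_mul_of_nonneg_right _ (Nat.cast_nonneg _)
        apply mul_le_mul_of_nonneg_right _ (by positivity)
        apply pow_le_pow_left₀ (by positivity)
        linarith
    _ ≤ (2 : ℝ) ^ (ε / 2 * n) * (2 : ℝ) ^ (cplus * K + ε / 2 * n) :=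
        mul_le_mul h2 (h1 K hK) (Nat.cast_nonneg _) (by positivity)
    _ = _ := by
        rw [← Real.rpow_add (by norm_num)]
        congr 1
        ring

theorem count_le {n m : ℕ} (V : Fin m → Submodule ℝ (EuclideanSpace ℝ (Fin n)))
    (hV : ∀ i j, i ≠ j → V i ⟂ V j) (h0 : ∀ i, V i ≠ ⊥) : m ≤ n :=
  m_le one_pos V hV (fun i => by
    have : 0 < finrank ℝ (V i) := by
      rw [Nat.pos_iff_ne_zero]
      intro h
      exact h0 i (Submodule.finrank_eq_zero.1 h)
    exact this)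

theorem moved_ne {n : ℕ} (g : Isom n) (h : ∃ x, g x ≠ x) : (fixSpace g)ᗮ ≠ ⊥ := by
  intro h1
  rw [Submodule.orthogonal_eq_bot_iff] at h1
  obtain ⟨x, hx⟩ := h
  have h2 : x ∈ fixSpace g := by rw [h1]; exact Submodule.mem_top
  exact hx h2

theorem exps : Exps := by
  intro ε hε
  filter_upwards [factor ε hε] with n hn
  constructor
  · intro m K Λ V X sep hV h0 hI hX
    have hm := count_le V hV.orth h0
    -- we may replace `K` by `min K n`
    have hV' : Split V (min K n) := ⟨hV.orth, hV.span, fun i => le_min (hV.dim i) (by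
      have := Submodule.finrank_le (V i)
      rwa [finrank_euclideanSpace_fin] at this)⟩
    have h1 := gluing n m (min K n) Λ V X sep hV' hI hX
    have h2 : (X.card : ℝ) ≤ splitIndex Λ V *
        (((m : ℝ) + 1) ^ 5 * (2 * n + 1) ^ 3 * kissing (min K n)) := by exact_mod_cast h1
    refine h2.trans (mul_le_mul_of_nonneg_left ?_ (Nat.cast_nonneg _))
    have h3 := hn m (min K n) hm (min_le_right _ _)
    have h4 : ((m : ℝ) + 1) ^ 5 * (2 * n + 1) ^ 3 * kissing (min K n) ≤
        ((m : ℝ) + 2) ^ 5 * (2 * n + 1) ^ 3 * kissing (min K n) := by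
      apply mul_le_mul_of_nonneg_right _ (Nat.cast_nonneg _)
      apply mul_le_mul_of_nonneg_right _ (by positivity)
      apply pow_le_pow_left₀ (by positivity)
      linarith
    refine h4.trans (h3.trans ?_)
    apply Real.rpow_le_rpow_of_exponent_le (by norm_num)
    have h5 : ((min K n : ℕ) : ℝ) ≤ K := by exact_mod_cast min_le_left _ _
    have h6 := cplus_ge
    nlinarith
  · intro m K Λ g D X hA h0 hb hX
    have hm := count_le (fun i => (fixSpace (g i))ᗮ) hA.orth (fun i => moved_ne (g i) (h0 i))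
    have hA' : Auts Λ g (min K n) := ⟨hA.pack, hA.pres, hA.orth, fun i => le_min (hA.moved i) (by
      have := Submodule.finrank_le (fixSpace (g i))ᗮ
      rwa [finrank_euclideanSpace_fin] at this), le_min hA.fixed (by
      have := Submodule.finrank_le (⨅ i, fixSpace (g i))
      rwa [finrank_euclideanSpace_fin] at this)⟩
    have h1 := autIneq n m (min K n) Λ g D X hA' hb hX
    refine h1.trans ?_
    have hD : 0 ≤ D ^ (∑ i, Module.finrank ℝ (fixSpace (g i))ᗮ) := by
      rcases Nat.eq_zero_or_pos m with hm0 | hm0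
      · subst hm0
        simp
      · have := (hb ⟨0, hm0⟩).1
        positivity
    refine mul_le_mul_of_nonneg_left ?_ hD
    refine (hn m (min K n) hm (min_le_right _ _)).trans ?_
    apply Real.rpow_le_rpow_of_exponent_le (by norm_num)
    have h5 : ((min K n : ℕ) : ℝ) ≤ K := by exact_mod_cast min_le_left _ _
    have h6 := cplus_ge
    nlinarith

/-- large periods give every base `D = 2 ^ h` -/
theorem base_of_periods (h : ℝ) (hh : 0 < h) : ∃ M : ℕ, ∀ (n : ℕ) (g : Isom n),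
    (∀ d : ℕ, 0 < d → d ≤ M → ∀ x, g^[d] x = x → g x = x) → Base g ((2 : ℝ) ^ h) := by
  have hD1 : 1 ≤ (2 : ℝ) ^ h := Real.one_le_rpow (by norm_num) hh.le
  have hx : |(2 : ℝ) ^ (-(h / 2))| < 1 := by
    rw [abs_of_pos (by positivity)]
    exact Real.rpow_lt_one_of_one_lt_of_neg (by norm_num) (by linarith)
  have h1 := tendsto_pow_const_mul_const_pow_of_abs_lt_one 1 hx
  have h2 : ∀ᶠ q : ℕ in atTop, (q : ℝ) ^ 1 * ((2 : ℝ) ^ (-(h / 2))) ^ q < 1 :=
    (tendsto_order.1 h1).2 _ one_pos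
  obtain ⟨M, hM⟩ := eventually_atTop.1 h2
  refine ⟨M, fun n g hg => ⟨hD1, fun p k hp hk hord => ?_⟩⟩
  have hq := hasOrd_gt g hg hp hk hord
  have h3 := hM (p ^ k) hq.le
  rw [pow_one] at h3
  have h4 : (((p ^ k : ℕ)) : ℝ) < (2 : ℝ) ^ (h / 2 * ((p ^ k : ℕ) : ℝ)) := by
    have e : ((2 : ℝ) ^ (-(h / 2))) ^ (p ^ k) = ((2 : ℝ) ^ (h / 2 * ((p ^ k : ℕ) : ℝ)))⁻¹ := by
      rw [← Real.rpow_natCast, ← Real.rpow_mul (by norm_num), ← Real.rpow_neg (by norm_num)]
      congr 1
      ring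
    rw [e, ← div_eq_mul_inv, div_lt_one (by positivity)] at h3
    exact h3
  have h5 := le_two_totient hp hk
  have h5' : ((p ^ k : ℕ) : ℝ) ≤ 2 * (Nat.totient (p ^ k) : ℝ) := by exact_mod_cast h5
  have h8 : (p : ℝ) ≤ ((p ^ k : ℕ) : ℝ) := by
    exact_mod_cast Nat.le_self_pow hk.ne' p
  calc (p : ℝ) ≤ ((p ^ k : ℕ) : ℝ) := h8
    _ ≤ (2 : ℝ) ^ (h / 2 * ((p ^ k : ℕ) : ℝ)) := h4.le
    _ ≤ (2 : ℝ) ^ (h * (Nat.totient (p ^ k) : ℝ)) := by
        apply Real.rpow_le_rpow_of_exponent_le (by norm_num)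
        nlinarith
    _ = ((2 : ℝ) ^ h) ^ Nat.totient (p ^ k) := by
        rw [← Real.rpow_natCast, ← Real.rpow_mul (by norm_num)]

theorem longPeriods : LongPeriods := by
  intro ε hε
  obtain ⟨M, hM⟩ := base_of_periods (ε / 2) (by positivity)
  refine ⟨M, ?_⟩
  filter_upwards [exps (ε / 2) (by positivity)] with n hn m K Λ g X hA h0 hper hX
  have h1 := hn.2 m K Λ g ((2 : ℝ) ^ (ε / 2)) X hA h0 (fun i => hM n (g i) (hper i)) hX
  refine h1.trans ?_
  have hdim : ∑ i, Module.finrank ℝ (fixSpace (g i))ᗮ ≤ n := by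
    rw [← finrank_sup (fun i => (fixSpace (g i))ᗮ) hA.orth Finset.univ]
    have := Submodule.finrank_le (Finset.univ.sup (fun i => (fixSpace (g i))ᗮ))
    rwa [finrank_euclideanSpace_fin] at this
  have hdim' : ((∑ i, Module.finrank ℝ (fixSpace (g i))ᗮ : ℕ) : ℝ) ≤ n := by exact_mod_cast hdim
  rw [← Real.rpow_natCast, ← Real.rpow_mul (by norm_num), ← Real.rpow_add (by norm_num)]
  apply Real.rpow_le_rpow_of_exponent_le (by norm_num)
  nlinarith

theorem fewVectors : FewVectors := by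
  obtain ⟨M, hM⟩ := longPeriods (1 / 20000) (by norm_num)
  refine ⟨M, ?_⟩
  filter_upwards [hM, eventually_gt_atTop 0] with n hn hn0 m K Λ g X hA h0 hper hX hK
  have h1 := hn m K Λ g X hA h0 hper hX
  have h2 := wyner' n hn0
  have h3 : cplus ≤ 397 / 1000 := cplus_le
  have hn0' : (0 : ℝ) ≤ n := Nat.cast_nonneg n
  refine h1.trans ?_
  calc (2 : ℝ) ^ (cplus * K + 1 / 20000 * n)
      ≤ (2 : ℝ) ^ (-(n : ℝ) / 2000 + (83 / 400 : ℝ) * n) := by
        apply Real.rpow_le_rpow_of_exponent_le (by norm_num)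
        have h4 : cplus * K ≤ 397 / 1000 * (13 / 25 * n) := by
          apply mul_le_mul h3 hK (Nat.cast_nonneg _) (by norm_num)
        linarith
    _ = (2 : ℝ) ^ (-(n : ℝ) / 2000) * (2 : ℝ) ^ ((83 / 400 : ℝ) * n) := by
        rw [← Real.rpow_add (by norm_num)]
    _ ≤ _ := mul_le_mul_of_nonneg_left h2 (by positivity)

end Pool.Agent.TH856.KL
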