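import Pool.Agent.TH856.SP.Defs
import Pool.Agent.W967.LI.Free
import Pool.Agent.H161R2.KissStat

/-! Definitions and the parts of the statement of `MP_b5f63d_co.LatticeSymmetries`. -/

set_option autoImplicit false

open Filter

namespace Pool.Agent.TH856.KL

open Pool.Agent.H818R2 Pool.Agent.H161R2.KissSym Pool.Agent.TH856.SP Pool.Agent.W967.LI

/-- `X` consists of vectors of length `1` of `Λ` -/
def MinSet {n : ℕ} (Λ : Submodule ℤ (EuclideanSpace ℝ (Fin n)))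
    (X : Finset (EuclideanSpace ℝ (Fin n))) : Prop :=
  ∀ x ∈ X, x ∈ Λ ∧ ‖x‖ = 1

/-- the `V i` are pairwise orthogonal, span `ℝⁿ` and have dimensions at most `K` -/
structure Split {n m : ℕ} (V : Fin m → Submodule ℝ (EuclideanSpace ℝ (Fin n))) (K : ℕ) : Prop where
  orth : ∀ i j, i ≠ j → V i ⟂ V j
  span : ⨆ i, V i = ⊤
  dim : ∀ i, Module.finrank ℝ (V i) ≤ K

/-- the index of the sum of the `Λ ∩ V i` in `Λ` (`0` if it is infinite) -/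
noncomputable def splitIndex {n m : ℕ} (Λ : Submodule ℤ (EuclideanSpace ℝ (Fin n)))
    (V : Fin m → Submodule ℝ (EuclideanSpace ℝ (Fin n))) : ℕ :=
  (⨆ i, Λ ⊓ (V i).restrictScalars ℤ).toAddSubgroup.relIndex Λ.toAddSubgroup

/-- `Λ` is a lattice with nonzero vectors of length at least `1`, the `g i` map it into itself, the
spaces `M i = (Fix (g i))ᗮ` are pairwise orthogonal; the `M i` and the common fixed space have
dimensions at most `K` -/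
structure Auts {n m : ℕ} (Λ : Submodule ℤ (EuclideanSpace ℝ (Fin n)))
    (g : Fin m → Isom n) (K : ℕ) : Prop where
  pack : LatPackE Λ 1
  pres : ∀ i, ∀ x ∈ Λ, g i x ∈ Λ
  orth : ∀ i j, i ≠ j → (fixSpace (g i))ᗮ ⟂ (fixSpace (g j))ᗮ
  moved : ∀ i, Module.finrank ℝ (fixSpace (g i))ᗮ ≤ K
  fixed : Module.finrank ℝ ↥(⨅ i, fixSpace (g i)) ≤ K

/-- (1) the gluing inequality -/
def Gluing : Prop :=
  ∀ (n m K : ℕ) (Λ : Submodule ℤ (EuclideanSpace ℝ (Fin n)))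
    (V : Fin m → Submodule ℝ (EuclideanSpace ℝ (Fin n))) (X : Finset (EuclideanSpace ℝ (Fin n))),
    (∀ x ∈ Λ, x ≠ 0 → 1 ≤ ‖x‖) → Split V K → splitIndex Λ V ≠ 0 → MinSet Λ X →
    X.card ≤ splitIndex Λ V * ((m + 1) ^ 5 * (2 * n + 1) ^ 3 * kissing K)

/-- (2) several automorphisms -/
def AutIneq : Prop :=
  ∀ (n m K : ℕ) (Λ : Submodule ℤ (EuclideanSpace ℝ (Fin n))) (g : Fin m → Isom n) (D : ℝ)
    (X : Finset (EuclideanSpace ℝ (Fin n))),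
    Auts Λ g K → (∀ i, Base (g i) D) → MinSet Λ X →
    (X.card : ℝ) ≤ D ^ (∑ i, Module.finrank ℝ (fixSpace (g i))ᗮ) *
      ((m + 2) ^ 5 * (2 * n + 1) ^ 3 * kissing K)

/-- (3) one automorphism; automorphisms of prime order -/
def OneIneq : Prop :=
  (∀ (n s : ℕ) (Λ : Submodule ℤ (EuclideanSpace ℝ (Fin n))) (g : Isom n) (D : ℝ)
    (X : Finset (EuclideanSpace ℝ (Fin n))),
    AutLat Λ 1 g s → Base g D → MinSet Λ X →
    (X.card : ℝ) ≤ D ^ (n - s) *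
      ((2 * s + 1) * kissing (n - s) + (2 * (n - s : ℕ) + 1) * kissing s)) ∧
  ∀ (n p : ℕ) (g : Isom n), p.Prime → (∀ x, g^[p] x = x) → Base g ((p : ℝ) ^ (1 / ((p : ℝ) - 1)))

/-- (4) exponents -/
def Exps : Prop :=
  ∀ ε : ℝ, 0 < ε → ∀ᶠ n : ℕ in atTop,
    (∀ (m K : ℕ) (Λ : Submodule ℤ (EuclideanSpace ℝ (Fin n)))
      (V : Fin m → Submodule ℝ (EuclideanSpace ℝ (Fin n))) (X : Finset (EuclideanSpace ℝ (Fin n))),
      (∀ x ∈ Λ, x ≠ 0 → 1 ≤ ‖x‖) → Split V K → (∀ i, V i ≠ ⊥) → splitIndex Λ V ≠ 0 →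
      MinSet Λ X → (X.card : ℝ) ≤ splitIndex Λ V * (2 : ℝ) ^ (cplus * K + ε * n)) ∧
    ∀ (m K : ℕ) (Λ : Submodule ℤ (EuclideanSpace ℝ (Fin n))) (g : Fin m → Isom n) (D : ℝ)
      (X : Finset (EuclideanSpace ℝ (Fin n))),
      Auts Λ g K → (∀ i, ∃ x, g i x ≠ x) → (∀ i, Base (g i) D) → MinSet Λ X →
      (X.card : ℝ) ≤ D ^ (∑ i, Module.finrank ℝ (fixSpace (g i))ᗮ) *
        (2 : ℝ) ^ (cplus * K + ε * n)

/-- (5) large periods -/
def LongPeriods : Prop :=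
  ∀ ε : ℝ, 0 < ε → ∃ M : ℕ, ∀ᶠ n : ℕ in atTop,
    ∀ (m K : ℕ) (Λ : Submodule ℤ (EuclideanSpace ℝ (Fin n))) (g : Fin m → Isom n)
      (X : Finset (EuclideanSpace ℝ (Fin n))),
      Auts Λ g K → (∀ i, ∃ x, g i x ≠ x) →
      (∀ i, ∀ d : ℕ, 0 < d → d ≤ M → ∀ x, (g i)^[d] x = x → g i x = x) → MinSet Λ X →
      (X.card : ℝ) ≤ (2 : ℝ) ^ (cplus * K + ε * n)

/-- (6) exponentially fewer vectors than the kissing number of the space -/
def FewVectors : Prop :=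
  ∃ M : ℕ, ∀ᶠ n : ℕ in atTop,
    ∀ (m K : ℕ) (Λ : Submodule ℤ (EuclideanSpace ℝ (Fin n))) (g : Fin m → Isom n)
      (X : Finset (EuclideanSpace ℝ (Fin n))),
      Auts Λ g K → (∀ i, ∃ x, g i x ≠ x) →
      (∀ i, ∀ d : ℕ, 0 < d → d ≤ M → ∀ x, (g i)^[d] x = x → g i x = x) → MinSet Λ X →
      (K : ℝ) ≤ 13 / 25 * n →
      (X.card : ℝ) ≤ (2 : ℝ) ^ (-(n : ℝ) / 2000) * kissing n

end Pool.Agent.TH856.KL
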