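import Pool.Agent.TH856.KL.Obtuse
import Pool.Agent.H161R2.KissSym2

/-! Unit vectors whose differences have projections `0` or of length at least `1` on a subspace and
on its orthogonal complement. -/

set_option autoImplicit false

namespace Pool.Agent.TH856.KL

open scoped InnerProductSpace
open Pool.Agent.H818R2 Pool.Agent.H161R2.KissSym

theorem short_card {n : ℕ} (W : Submodule ℝ (EuclideanSpace ℝ (Fin n)))
    (A : Finset (EuclideanSpace ℝ (Fin n))) (hW : ∀ a ∈ A, a ∈ W) (hA : ∀ a ∈ A, ‖a‖ ^ 2 ≤ 1 / 2)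
    (hs : ∀ a ∈ A, ∀ b ∈ A, a ≠ b → 1 ≤ ‖a - b‖) : A.card ≤ 2 * Module.finrank ℝ W + 1 := by
  classical
  have h1 : (A.erase 0).card ≤ 2 * Module.finrank ℝ W := by
    apply obtuse_card _ W rfl
    · exact fun a ha => hW a (Finset.mem_erase.1 ha).2
    · exact fun a ha => (Finset.mem_erase.1 ha).1
    · intro a ha b hb hab
      have h2 := hs a (Finset.mem_erase.1 ha).2 b (Finset.mem_erase.1 hb).2 hab
      have h3 := hA a (Finset.mem_erase.1 ha).2
      have h4 := hA b (Finset.mem_erase.1 hb).2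
      have h5 := norm_sub_sq_real a b
      nlinarith
  have h2 := Finset.pred_card_le_card_erase (s := A) (a := 0)
  omega

theorem sphere_card {n : ℕ} (W : Submodule ℝ (EuclideanSpace ℝ (Fin n)))
    (A : Finset (EuclideanSpace ℝ (Fin n))) (hW : ∀ a ∈ A, a ∈ W) (ρ : ℝ) (h0 : 0 < ρ) (h1 : ρ ≤ 1)
    (hA : ∀ a ∈ A, ‖a‖ = ρ) (hs : ∀ a ∈ A, ∀ b ∈ A, a ≠ b → 1 ≤ ‖a - b‖) :
    A.card ≤ kissing (Module.finrank ℝ W) := by
  classical
  have hinj : Function.Injective (fun a : EuclideanSpace ℝ (Fin n) => ρ⁻¹ • a) :=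
    smul_right_injective _ (inv_ne_zero h0.ne')
  rw [← Finset.card_image_of_injective A hinj]
  have hsin : 0 < Real.sin (Real.pi / 3 / 2) := by rw [sin_kiss]; norm_num
  refine card_le_sub hsin W (X := A.image (fun a => ρ⁻¹ • a)) ⟨?_, ?_⟩ ?_
  · intro x hx
    obtain ⟨a, ha, rfl⟩ := Finset.mem_image.1 hx
    rw [norm_smul, hA a ha, Real.norm_eq_abs, abs_of_pos (inv_pos.2 h0), inv_mul_cancel₀ h0.ne']
  · intro x hx y hy hxy
    obtain ⟨a, ha, rfl⟩ := Finset.mem_image.1 hx
    obtain ⟨b, hb, rfl⟩ := Finset.mem_image.1 hy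
    have hab : a ≠ b := fun h => hxy (by rw [h])
    have h2 := hs a ha b hb hab
    have h5 := norm_sub_sq_real a b
    rw [hA a ha, hA b hb] at h5
    rw [real_inner_smul_left, real_inner_smul_right, Real.cos_pi_div_three]
    have h6 : ⟪a, b⟫_ℝ ≤ ρ ^ 2 - 1 / 2 := by nlinarith
    have h7 : ρ⁻¹ * (ρ⁻¹ * ⟪a, b⟫_ℝ) = ⟪a, b⟫_ℝ / ρ ^ 2 := by
      field_simp
    rw [h7, div_le_iff₀ (by positivity)]
    nlinarith
  · intro x hx
    obtain ⟨a, ha, rfl⟩ := Finset.mem_image.1 hx
    exact W.smul_mem _ (hW a ha)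

theorem half_card {n : ℕ} (U W : Submodule ℝ (EuclideanSpace ℝ (Fin n)))
    (hUW : ∀ x, U.starProjection x + W.starProjection x = x)
    (hn : ∀ x, ‖x‖ ^ 2 = ‖U.starProjection x‖ ^ 2 + ‖W.starProjection x‖ ^ 2)
    (C : Finset (EuclideanSpace ℝ (Fin n))) (h1 : ∀ x ∈ C, ‖x‖ = 1)
    (hU : ∀ x ∈ C, ∀ y ∈ C, U.starProjection (x - y) = 0 ∨ 1 ≤ ‖U.starProjection (x - y)‖)
    (hW : ∀ x ∈ C, ∀ y ∈ C, W.starProjection (x - y) = 0 ∨ 1 ≤ ‖W.starProjection (x - y)‖)
    (hshort : ∀ x ∈ C, ‖U.starProjection x‖ ^ 2 ≤ 1 / 2) :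
    C.card ≤ (2 * Module.finrank ℝ U + 1) * kissing (Module.finrank ℝ W) := by
  classical
  have hA : (C.image U.starProjection).card ≤ 2 * Module.finrank ℝ U + 1 := by
    apply short_card U
    · intro a ha
      obtain ⟨x, hx, rfl⟩ := Finset.mem_image.1 ha
      exact Submodule.starProjection_apply_mem _ _
    · intro a ha
      obtain ⟨x, hx, rfl⟩ := Finset.mem_image.1 ha
      exact hshort x hx
    · intro a ha b hb hab
      obtain ⟨x, hx, rfl⟩ := Finset.mem_image.1 ha
      obtain ⟨y, hy, rfl⟩ := Finset.mem_image.1 hb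
      rw [← map_sub]
      rcases hU x hx y hy with h | h
      · exfalso
        rw [map_sub, sub_eq_zero] at h
        exact hab h
      · exact h
  have hF : ∀ a ∈ C.image U.starProjection,
      (C.filter (fun x => U.starProjection x = a)).card ≤ kissing (Module.finrank ℝ W) := by
    intro a ha
    obtain ⟨x0, hx0, rfl⟩ := Finset.mem_image.1 ha
    set a := U.starProjection x0 with hadef
    set F := C.filter (fun x => U.starProjection x = a) with hFdef
    have hinj : Set.InjOn W.starProjection F := by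
      intro x hx y hy hxy
      have hx' := (Finset.mem_filter.1 (Finset.mem_coe.1 hx)).2
      have hy' := (Finset.mem_filter.1 (Finset.mem_coe.1 hy)).2
      rw [← hUW x, ← hUW y, hx', hy', hxy]
    rw [← Finset.card_image_of_injOn hinj]
    have ha2 : ‖a‖ ^ 2 ≤ 1 / 2 := hshort x0 hx0
    have hρ : 0 < 1 - ‖a‖ ^ 2 := by linarith
    apply sphere_card W _ _ (Real.sqrt (1 - ‖a‖ ^ 2)) (Real.sqrt_pos.2 hρ)
    · rw [Real.sqrt_le_left (by norm_num)]
      have : 0 ≤ ‖a‖ ^ 2 := by positivity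
      linarith
    · intro b hb
      obtain ⟨x, hx, rfl⟩ := Finset.mem_image.1 hb
      have hx' := Finset.mem_filter.1 hx
      have h2 := hn x
      rw [h1 x hx'.1, hx'.2] at h2
      rw [eq_comm, Real.sqrt_eq_iff_mul_self_eq hρ.le (norm_nonneg _)]
      nlinarith
    · intro b hb c hc hbc
      obtain ⟨x, hx, rfl⟩ := Finset.mem_image.1 hb
      obtain ⟨y, hy, rfl⟩ := Finset.mem_image.1 hc
      rw [← map_sub]
      rcases hW x (Finset.mem_filter.1 hx).1 y (Finset.mem_filter.1 hy).1 with h | h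
      · exfalso
        rw [map_sub, sub_eq_zero] at h
        exact hbc h
      · exact h
    · intro b hb
      obtain ⟨x, hx, rfl⟩ := Finset.mem_image.1 hb
      exact Submodule.starProjection_apply_mem _ _
  calc C.card ≤ kissing (Module.finrank ℝ W) * (C.image U.starProjection).card :=
        Finset.card_le_mul_card_image _ _ hF
    _ ≤ kissing (Module.finrank ℝ W) * (2 * Module.finrank ℝ U + 1) := Nat.mul_le_mul_left _ hA
    _ = _ := mul_comm _ _

theorem class_card {n : ℕ} (W : Submodule ℝ (EuclideanSpace ℝ (Fin n)))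
    (C : Finset (EuclideanSpace ℝ (Fin n))) (h1 : ∀ x ∈ C, ‖x‖ = 1)
    (hP : ∀ x ∈ C, ∀ y ∈ C, W.starProjection (x - y) = 0 ∨ 1 ≤ ‖W.starProjection (x - y)‖)
    (hQ : ∀ x ∈ C, ∀ y ∈ C, Wᗮ.starProjection (x - y) = 0 ∨ 1 ≤ ‖Wᗮ.starProjection (x - y)‖) :
    C.card ≤ (2 * Module.finrank ℝ W + 1) * kissing (Module.finrank ℝ Wᗮ) +
      (2 * Module.finrank ℝ Wᗮ + 1) * kissing (Module.finrank ℝ W) := by
  classical
  have hadd : ∀ x, W.starProjection x + Wᗮ.starProjection x = x :=
    fun x => Submodule.starProjection_add_starProjection_orthogonal x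
  have hnorm : ∀ x, ‖x‖ ^ 2 = ‖W.starProjection x‖ ^ 2 + ‖Wᗮ.starProjection x‖ ^ 2 :=
    fun x => Submodule.norm_sq_eq_add_norm_sq_starProjection x W
  rw [← Finset.card_filter_add_card_filter_not (s := C)
    (fun x => ‖W.starProjection x‖ ^ 2 ≤ 1 / 2)]
  apply Nat.add_le_add
  · apply half_card W Wᗮ hadd hnorm
    · exact fun x hx => h1 x (Finset.mem_filter.1 hx).1
    · exact fun x hx y hy => hP x (Finset.mem_filter.1 hx).1 y (Finset.mem_filter.1 hy).1
    · exact fun x hx y hy => hQ x (Finset.mem_filter.1 hx).1 y (Finset.mem_filter.1 hy).1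
    · exact fun x hx => (Finset.mem_filter.1 hx).2
  · apply half_card Wᗮ W (fun x => by rw [add_comm]; exact hadd x)
      (fun x => by rw [add_comm]; exact hnorm x)
    · exact fun x hx => h1 x (Finset.mem_filter.1 hx).1
    · exact fun x hx y hy => hQ x (Finset.mem_filter.1 hx).1 y (Finset.mem_filter.1 hy).1
    · exact fun x hx y hy => hP x (Finset.mem_filter.1 hx).1 y (Finset.mem_filter.1 hy).1
    · intro x hx
      have h2 := (Finset.mem_filter.1 hx).2
      have h3 := hnorm x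
      rw [h1 x (Finset.mem_filter.1 hx).1] at h3
      rw [not_le] at h2
      linarith

/-- the gluing inequality in abstract form: `c` is a colouring of `X` such that differences of
vectors of the same colour have good projections -/
theorem colour_card {n : ℕ} (W : Submodule ℝ (EuclideanSpace ℝ (Fin n)))
    (X : Finset (EuclideanSpace ℝ (Fin n))) (h1 : ∀ x ∈ X, ‖x‖ = 1) {ι : Type*} [Finite ι]
    (c : EuclideanSpace ℝ (Fin n) → ι)
    (hc : ∀ x ∈ X, ∀ y ∈ X, c x = c y →
      (W.starProjection (x - y) = 0 ∨ 1 ≤ ‖W.starProjection (x - y)‖) ∧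
      (Wᗮ.starProjection (x - y) = 0 ∨ 1 ≤ ‖Wᗮ.starProjection (x - y)‖)) :
    X.card ≤ Nat.card ι * ((2 * Module.finrank ℝ W + 1) * kissing (Module.finrank ℝ Wᗮ) +
      (2 * Module.finrank ℝ Wᗮ + 1) * kissing (Module.finrank ℝ W)) := by
  classical
  have := Fintype.ofFinite ι
  set B := (2 * Module.finrank ℝ W + 1) * kissing (Module.finrank ℝ Wᗮ) +
      (2 * Module.finrank ℝ Wᗮ + 1) * kissing (Module.finrank ℝ W) with hB
  have h2 : X.card ≤ B * (X.image c).card := by
    apply Finset.card_le_mul_card_image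
    intro i _
    apply class_card
    · exact fun x hx => h1 x (Finset.mem_filter.1 hx).1
    · intro x hx y hy
      exact (hc x (Finset.mem_filter.1 hx).1 y (Finset.mem_filter.1 hy).1
        ((Finset.mem_filter.1 hx).2.trans (Finset.mem_filter.1 hy).2.symm)).1
    · intro x hx y hy
      exact (hc x (Finset.mem_filter.1 hx).1 y (Finset.mem_filter.1 hy).1
        ((Finset.mem_filter.1 hx).2.trans (Finset.mem_filter.1 hy).2.symm)).2
  have h3 : (X.image c).card ≤ Nat.card ι := by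
    rw [Nat.card_eq_fintype_card]
    exact Finset.card_le_univ _
  calc X.card ≤ B * (X.image c).card := h2
    _ ≤ B * Nat.card ι := Nat.mul_le_mul_left _ h3
    _ = _ := mul_comm _ _

end Pool.Agent.TH856.KL
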