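import Pool.Agent.TH856.SP.Main
import Pool.Agent.TH856.KL.Geom

/-! The index of the sum of the fixed and the moved part of a lattice with an automorphism. -/

set_option autoImplicit false

namespace Pool.Agent.TH856.KL

open Polynomial Module MeasureTheory Submodule
open scoped InnerProductSpace
open Pool.Agent.W967.LI Pool.Agent.TH856.SP Pool.Agent.H818R2

/-- Coordinates adapted to the automorphism `g`. -/
theorem coordsK {n : ℕ} (Λ : Submodule ℤ (EuclideanSpace ℝ (Fin n))) (m : ℝ) (hΛ : LatPackE Λ m)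
    (g : EuclideanSpace ℝ (Fin n) ≃ₗᵢ[ℝ] EuclideanSpace ℝ (Fin n)) (hg : ∀ x ∈ Λ, g x ∈ Λ)
    (r s : ℕ) (hs : finrank ℝ (fixSpace g) = s) (hrs : r + s = n) :
    ∃ (Λ' : Submodule ℤ (Fin r ⊕ Fin s → ℝ)) (h : (Fin r → ℝ) →ₗ[ℝ] (Fin r → ℝ))
      (ψ : (Fin r → ℝ) →ₗ[ℝ] EuclideanSpace ℝ (Fin n)),
      LatPack Λ' m ∧ (∀ u, Sum.elim u (fun _ => 0) ∈ Λ' ↔ ψ u ∈ Λ) ∧ (∀ u, ψ u ∈ (fixSpace g)ᗮ) ∧
      (∀ x ∈ (fixSpace g)ᗮ, ∃ u, ψ u = x) ∧ Function.Injective ψ ∧
      (∀ u, ψ (h u) = g (ψ u)) ∧ (∀ u, h u = u → u = 0) ∧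
      ∀ x ∈ Λ', Sum.elim (h (fun i => x (Sum.inl i))) (fun j => x (Sum.inr j)) ∈ Λ' := by
  have hd := hΛ.disc
  have hz : IsZLattice ℝ Λ := ⟨hΛ.span_top⟩
  set W := fixSpace g with hW
  have hWm : ∀ x, x ∈ W ↔ g x = x := fun x => Iff.rfl
  have hr : finrank ℝ Wᗮ = r := by
    have := Submodule.finrank_add_finrank_orthogonal W
    rw [finrank_euclideanSpace_fin] at this
    omega
  let b₁ : OrthonormalBasis (Fin r) ℝ Wᗮ := (stdOrthonormalBasis ℝ Wᗮ).reindex (finCongr hr)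
  let b₂ : OrthonormalBasis (Fin s) ℝ W := (stdOrthonormalBasis ℝ W).reindex (finCongr hs)
  let v : Fin r ⊕ Fin s → EuclideanSpace ℝ (Fin n) :=
    Sum.elim (fun i => (b₁ i : EuclideanSpace ℝ (Fin n))) (fun j => (b₂ j : EuclideanSpace ℝ (Fin n)))
  have hv : Orthonormal ℝ v := by
    constructor
    · rintro (i | j)
      · exact b₁.orthonormal.1 i
      · exact b₂.orthonormal.1 j
    · rintro (i | i) (j | j) hij
      · exact b₁.orthonormal.2 (fun e => hij (by rw [e]))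
      · exact Submodule.inner_left_of_mem_orthogonal (b₂ j).2 (b₁ i).2
      · exact Submodule.inner_right_of_mem_orthogonal (b₂ i).2 (b₁ j).2
      · exact b₂.orthonormal.2 (fun e => hij (by rw [e]))
  have hspan : ⊤ ≤ span ℝ (Set.range v) := by
    have hc : Fintype.card (Fin r ⊕ Fin s) = finrank ℝ (EuclideanSpace ℝ (Fin n)) := by
      simp [hrs]
    exact (hv.linearIndependent.span_eq_top_of_card_eq_finrank' hc).ge
  let ob := OrthonormalBasis.mk hv hspan
  have hob : ∀ i, ob i = v i := fun i => by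
    rw [OrthonormalBasis.coe_mk]
  obtain ⟨Λ', hmem, hp, hdens⟩ := transfer (by simp [hrs]) ob Λ m hΛ
  let ψ : (Fin r → ℝ) →ₗ[ℝ] EuclideanSpace ℝ (Fin n) :=
    (Wᗮ).subtype ∘ₗ b₁.repr.symm.toLinearEquiv.toLinearMap ∘ₗ
      (EuclideanSpace.equiv (Fin r) ℝ).symm.toLinearEquiv.toLinearMap
  have hψ : ∀ u, ψ u = ∑ i, u i • (b₁ i : EuclideanSpace ℝ (Fin n)) := by
    intro u
    change ((b₁.repr.symm ((EuclideanSpace.equiv (Fin r) ℝ).symm u) : Wᗮ) :
      EuclideanSpace ℝ (Fin n)) = _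
    rw [← OrthonormalBasis.sum_repr_symm, AddSubmonoidClass.coe_finsetSum]
    rfl
  have hψn : ∀ u, ‖ψ u‖ ^ 2 = ∑ i, u i ^ 2 := by
    intro u
    have e : ‖ψ u‖ = ‖(EuclideanSpace.equiv (Fin r) ℝ).symm u‖ := by
      change ‖b₁.repr.symm _‖ = _
      rw [LinearIsometryEquiv.norm_map]
      rfl
    rw [e, EuclideanSpace.norm_sq_eq]
    apply Finset.sum_congr rfl
    intro i _
    rw [Real.norm_eq_abs, sq_abs]
    rfl
  have hψ0 : ∀ u, ψ u = 0 → u = 0 := by
    intro u hu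
    have h1 := hψn u
    rw [hu, norm_zero] at h1
    have h2 : ∑ i, u i ^ 2 = 0 := by rw [← h1]; norm_num
    rw [Finset.sum_eq_zero_iff_of_nonneg (fun _ _ => sq_nonneg _)] at h2
    ext i
    exact pow_eq_zero_iff two_ne_zero |>.1 (h2 i (Finset.mem_univ i))
  have hψi : Function.Injective ψ := by
    rw [injective_iff_map_eq_zero]
    exact hψ0
  have hψm : ∀ u, ψ u ∈ Wᗮ := fun u =>
    (b₁.repr.symm ((EuclideanSpace.equiv (Fin r) ℝ).symm u)).2
  have hgW : ∀ x ∈ Wᗮ, g x ∈ Wᗮ := by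
    intro x hx
    rw [Submodule.mem_orthogonal] at hx ⊢
    intro w hw
    have h1 := hx w hw
    rw [← (hWm w).1 hw, LinearIsometryEquiv.inner_map_map]
    exact h1
  let h : (Fin r → ℝ) →ₗ[ℝ] (Fin r → ℝ) :=
    { toFun := fun u i => ⟪(b₁ i : EuclideanSpace ℝ (Fin n)), g (ψ u)⟫_ℝ
      map_add' := by intro u w; ext i; simp [inner_add_right]
      map_smul' := by intro c u; ext i; simp [inner_smul_right] }
  have key : ∀ u, ψ (h u) = g (ψ u) := by
    intro u
    have h1 := b₁.sum_repr' ⟨g (ψ u), hgW _ (hψm u)⟩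
    have h2 := congrArg Subtype.val h1
    rw [AddSubmonoidClass.coe_finsetSum] at h2
    rw [hψ]
    exact h2
  refine ⟨Λ', h, ψ, hp, ?_, hψm, ?_, hψi, key, ?_, ?_⟩
  · intro u
    rw [hmem, hψ]
    apply iff_of_eq
    congr 1
    simp only [hob, Fintype.sum_sum_type, v, Sum.elim_inl, Sum.elim_inr, zero_smul,
      Finset.sum_const_zero, add_zero]
  · intro x hx
    refine ⟨fun i => ⟪(b₁ i : EuclideanSpace ℝ (Fin n)), x⟫_ℝ, ?_⟩
    rw [hψ]
    have h1 := b₁.sum_repr' ⟨x, hx⟩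
    have h2 := congrArg Subtype.val h1
    rw [AddSubmonoidClass.coe_finsetSum] at h2
    exact h2
  · intro u hu
    apply hψ0
    have h1 : ψ u ∈ W := by
      rw [hWm, ← key, hu]
    have h2 : ⟪ψ u, ψ u⟫_ℝ = 0 := Submodule.inner_right_of_mem_orthogonal h1 (hψm u)
    exact inner_self_eq_zero.1 h2
  · intro x hx
    have h1 := (hmem x).1 hx
    rw [hmem]
    have h2 := hg _ h1
    convert h2 using 1
    simp only [hob, Fintype.sum_sum_type, v, Sum.elim_inl, Sum.elim_inr, map_add, map_sum,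
      map_smul]
    congr 1
    · rw [← hψ, key, hψ, map_sum]
      simp only [map_smul]
    · apply Finset.sum_congr rfl
      intro j _
      rw [(hWm _).1 (b₂ j).2]


/-- The number of classes of `L` modulo `(1 - h) L` is at most `D ^ r`. -/
theorem card_quot {r : ℕ} (L : Submodule ℤ (Fin r → ℝ)) [DiscreteTopology L] [IsZLattice ℝ L]
    (h : (Fin r → ℝ) →ₗ[ℝ] (Fin r → ℝ)) (hL : ∀ u ∈ L, h u ∈ L) (hfix : ∀ u, h u = u → u = 0)
    (N : ℕ) (hN : 0 < N) (hpow : h ^ N = 1) (D : ℝ) (hD : 0 < D)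
    (hS : ∀ d : ℕ, 0 < d → (∃ u : Fin r → ℝ, u ≠ 0 ∧ (aeval h (cyclotomic d ℝ)) u = 0) →
      |(((cyclotomic d ℤ).eval 1 : ℤ) : ℝ)| ≤ D ^ Nat.totient d) :
    ∃ (ι : Type) (_ : Finite ι) (c : L → ι), (Nat.card ι : ℝ) ≤ D ^ r ∧
      ∀ x y : L, c x = c y → ∃ z ∈ L, (x : Fin r → ℝ) - y = z - h z := by
  have hdetle := lat_det_le L h hL N hN hpow D hD hS
  have hcard : finrank ℤ L = r := by
    rw [ZLattice.rank ℝ L]; simp
  let b : Basis (Fin r) ℤ L := Module.finBasisOfFinrankEq ℤ L hcard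
  let B : Basis (Fin r) ℝ (Fin r → ℝ) := b.ofZLatticeBasis ℝ L
  let hZ : L →ₗ[ℤ] L := (h.restrictScalars ℤ).restrict hL
  have hZv : ∀ x : L, ((hZ x : L) : Fin r → ℝ) = h x := fun x => rfl
  set A : Matrix (Fin r) (Fin r) ℤ := LinearMap.toMatrix b b hZ with hA
  have key : LinearMap.toMatrix B B h = A.map (Int.cast : ℤ → ℝ) := by
    ext i j
    rw [Matrix.map_apply, hA, LinearMap.toMatrix_apply, LinearMap.toMatrix_apply]
    have e1 : h (B j) = ((hZ (b j) : L) : Fin r → ℝ) := by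
      rw [hZv, Basis.ofZLatticeBasis_apply]
    rw [e1]
    exact b.ofZLatticeBasis_repr_apply ℝ L (hZ (b j)) i
  have hdet : LinearMap.det (1 - h) = (((1 - A).det : ℤ) : ℝ) := by
    rw [← LinearMap.det_toMatrix B, map_sub, key]
    have h1 : LinearMap.toMatrix B B (1 : (Fin r → ℝ) →ₗ[ℝ] (Fin r → ℝ)) = 1 :=
      LinearMap.toMatrix_one B
    rw [h1]
    have h2 := (RingHom.map_det (Int.castRingHom ℝ) (1 - A)).symm
    have h3 : ((Int.castRingHom ℝ).mapMatrix (1 - A) : Matrix (Fin r) (Fin r) ℝ)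
        = 1 - A.map (Int.cast : ℤ → ℝ) := by
      rw [map_sub, map_one]
      rfl
    rw [h3] at h2
    exact h2
  let f : L →ₗ[ℤ] L := 1 - hZ
  have hfv : ∀ x : L, ((f x : L) : Fin r → ℝ) = x - h x := fun x => rfl
  have hinj : Function.Injective f := by
    rw [injective_iff_map_eq_zero]
    intro x hx
    have h1 : (x : Fin r → ℝ) - h x = 0 := by
      rw [← hfv, hx]; rfl
    exact Subtype.ext (hfix _ (sub_eq_zero.1 h1).symm)
  have hfdet : LinearMap.det f = (1 - A).det := by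
    rw [← LinearMap.det_toMatrix b]
    congr 1
    change LinearMap.toMatrix b b (1 - hZ) = 1 - A
    rw [map_sub, hA]
    congr 1
    exact LinearMap.toMatrix_one b
  have hc := Submodule.natAbs_det_equiv (LinearMap.range f) (LinearEquiv.ofInjective f hinj)
  have he : (LinearMap.range f).subtype ∘ₗ
      AddMonoidHom.toIntLinearMap ((LinearEquiv.ofInjective f hinj : L ≃ₗ[ℤ] LinearMap.range f) :
        L →+ LinearMap.range f) = f := by
    ext x
    rfl
  rw [he] at hc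
  have hne : LinearMap.det f ≠ 0 := by
    intro h0
    have h1 : LinearMap.det (1 - h) = 0 := by
      rw [hdet, ← hfdet, h0, Int.cast_zero]
    obtain ⟨u, hu0, hu⟩ : ∃ u : Fin r → ℝ, u ≠ 0 ∧ (1 - h) u = 0 := by
      have h2 := LinearMap.bot_lt_ker_of_det_eq_zero h1
      obtain ⟨u, hu, hu0⟩ := Submodule.exists_mem_ne_zero_of_ne_bot h2.ne'
      exact ⟨u, hu0, LinearMap.mem_ker.1 hu⟩
    apply hu0
    apply hfix
    rw [LinearMap.sub_apply, Module.End.one_apply, sub_eq_zero] at hu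
    exact hu.symm
  have hpos : Nat.card (L ⧸ LinearMap.range f) ≠ 0 := by
    rw [← hc]
    exact Int.natAbs_ne_zero.2 hne
  refine ⟨L ⧸ LinearMap.range f, Nat.finite_of_card_ne_zero hpos,
    fun x => Submodule.Quotient.mk x, ?_, ?_⟩
  · rw [← hc, Nat.cast_natAbs, hfdet, Int.cast_abs, ← hdet]
    exact hdetle
  · intro x y hxy
    rw [Submodule.Quotient.eq] at hxy
    obtain ⟨z, hz⟩ := hxy
    refine ⟨z, z.2, ?_⟩
    have h1 := congrArg (fun w : L => (w : Fin r → ℝ)) hz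
    rw [hfv] at h1
    rw [h1]
    rfl


/-- The classes of a lattice with an automorphism modulo the sum of its fixed and moved parts. -/
theorem classes {n s : ℕ} (Λ : Submodule ℤ (EuclideanSpace ℝ (Fin n))) (m : ℝ)
    (g : EuclideanSpace ℝ (Fin n) ≃ₗᵢ[ℝ] EuclideanSpace ℝ (Fin n)) (h : AutLat Λ m g s)
    (D : ℝ) (hb : Base g D) :
    ∃ (ι : Type) (_ : Finite ι) (c : EuclideanSpace ℝ (Fin n) → ι), (Nat.card ι : ℝ) ≤ D ^ (n - s) ∧
      ∀ x ∈ Λ, ∀ y ∈ Λ, c x = c y →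
        (fixSpace g).starProjection (x - y) ∈ Λ ∧ (fixSpace g)ᗮ.starProjection (x - y) ∈ Λ := by
  classical
  have hd := h.pack.disc
  have hz : IsZLattice ℝ Λ := ⟨h.pack.span_top⟩
  have hsn : s ≤ n := by
    have h1 := Submodule.finrank_le (fixSpace g)
    rw [h.fixdim, finrank_euclideanSpace_fin] at h1
    exact h1
  obtain ⟨Λ', f, ψ, hp, hmem, hψW, hsurj, hψ, key, hfix, hinv⟩ :=
    coordsK Λ m h.pack g h.pres (n - s) s h.fixdim (by omega)
  obtain ⟨N, hN, hgN⟩ := finite_order Λ g h.pres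
  have hpow : f ^ N = 1 := by
    have hk : ∀ (k : ℕ) (u), ψ ((f ^ k) u) = g^[k] (ψ u) := by
      intro k
      induction k with
      | zero => intro u; rfl
      | succ k ih =>
        intro u
        rw [pow_succ', Module.End.mul_apply, Function.iterate_succ_apply', ← ih u, key]
    apply LinearMap.ext
    intro u
    apply hψ
    rw [hk, hgN]
    rfl
  have hd' := hp.disc
  have hz' : IsZLattice ℝ Λ' := ⟨hp.span_top⟩
  obtain ⟨L₁, L₂, d1, z1, d2, z2, m1, m2, hc⟩ := covol_split_aut Λ' f hfix N hN hpow hinv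
  have hL : ∀ u ∈ L₁, f u ∈ L₁ := by
    intro u hu
    rw [m1] at hu ⊢
    have := hinv _ hu
    exact this
  have hm1 : ∀ u, u ∈ L₁ ↔ ψ u ∈ Λ := fun u => (m1 u).trans (hmem u)
  obtain ⟨ι, hι, c, hcard, hcc⟩ := card_quot L₁ f hL hfix N hN hpow D
    (lt_of_lt_of_le one_pos hb.1) (by
      rintro d hd ⟨u, hu0, hu⟩
      apply base_cyclotomic hb
      refine ⟨ψ u, fun h0 => hu0 (hψ (by rw [h0, map_zero])), ?_⟩
      rw [← aeval_comm f (g.toLinearEquiv.toLinearMap) ψ key, hu, map_zero])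
  have hperp : ∀ x, x - g x ∈ (fixSpace g)ᗮ := by
    intro x
    rw [Submodule.mem_orthogonal]
    intro w hw
    have hw' : g w = w := hw
    rw [inner_sub_right]
    nth_rw 2 [← hw']
    rw [LinearIsometryEquiv.inner_map_map, sub_self]
  have hex : ∀ x ∈ Λ, ∃ u ∈ L₁, ψ u = x - g x := by
    intro x hx
    obtain ⟨u, hu⟩ := hsurj _ (hperp x)
    refine ⟨u, ?_, hu⟩
    rw [hm1, hu]
    exact Λ.sub_mem hx (h.pres x hx)
  let U : EuclideanSpace ℝ (Fin n) → L₁ := fun x =>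
    if hx : x ∈ Λ then ⟨(hex x hx).choose, (hex x hx).choose_spec.1⟩ else 0
  have hU : ∀ x ∈ Λ, ψ (U x) = x - g x := by
    intro x hx
    simp only [U, dif_pos hx]
    exact (hex x hx).choose_spec.2
  refine ⟨ι, hι, fun x => c (U x), hcard, ?_⟩
  intro x hx y hy hxy
  obtain ⟨z, hzL, hz⟩ := hcc _ _ hxy
  have h1 := congrArg ψ hz
  rw [map_sub, map_sub, hU x hx, hU y hy, key] at h1
  have hzΛ : ψ z ∈ Λ := (hm1 z).1 hzL
  have hw : x - y - ψ z ∈ fixSpace g := by
    change g (x - y - ψ z) = x - y - ψ z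
    rw [map_sub, map_sub]
    have h2 : g x = x - (x - g x) := by abel
    have h3 : g y = y - (y - g y) := by abel
    rw [h2, h3]
    have h4 : x - (x - g x) - (y - (y - g y)) = x - y - (ψ z - g (ψ z)) := by
      rw [← h1]; abel
    rw [h4]
    abel
  have hP : (fixSpace g).starProjection (x - y) = x - y - ψ z := by
    apply Submodule.eq_starProjection_of_mem_orthogonal hw
    have : x - y - (x - y - ψ z) = ψ z := by abel
    rw [this]
    exact hψW z
  have hQ : (fixSpace g)ᗮ.starProjection (x - y) = ψ z := by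
    have h5 := Submodule.starProjection_add_starProjection_orthogonal (K := fixSpace g) (x - y)
    rw [hP] at h5
    have h6 : (fixSpace g)ᗮ.starProjection (x - y) = (x - y) - (x - y - ψ z) := by
      rw [eq_sub_iff_add_eq, add_comm]
      exact h5
    rw [h6]; abel
  exact ⟨by rw [hP]; exact Λ.sub_mem (Λ.sub_mem hx hy) hzΛ, by rw [hQ]; exact hzΛ⟩

/-- Kissing numbers of lattices with an automorphism. -/
theorem kiss_aut {n s : ℕ} (Λ : Submodule ℤ (EuclideanSpace ℝ (Fin n)))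
    (g : EuclideanSpace ℝ (Fin n) ≃ₗᵢ[ℝ] EuclideanSpace ℝ (Fin n)) (h : AutLat Λ 1 g s)
    (D : ℝ) (hb : Base g D) (X : Finset (EuclideanSpace ℝ (Fin n)))
    (hX : ∀ x ∈ X, x ∈ Λ ∧ ‖x‖ = 1) :
    (X.card : ℝ) ≤ D ^ (n - s) * ((2 * s + 1) * kissing (n - s) + (2 * (n - s : ℕ) + 1) * kissing s) := by
  obtain ⟨ι, hι, c, hcard, hc⟩ := classes Λ 1 g h D hb
  have hsn : s ≤ n := by
    have h1 := Submodule.finrank_le (fixSpace g)
    rw [h.fixdim, finrank_euclideanSpace_fin] at h1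
    exact h1
  have hdim : finrank ℝ (fixSpace g)ᗮ = n - s := by
    have := Submodule.finrank_add_finrank_orthogonal (fixSpace g)
    rw [finrank_euclideanSpace_fin, h.fixdim] at this
    omega
  have sep : ∀ z ∈ Λ, z = 0 ∨ 1 ≤ ‖z‖ := by
    intro z hz
    by_cases h0 : z = 0
    · exact Or.inl h0
    · exact Or.inr (h.pack.sep z hz h0)
  have h1 := colour_card (fixSpace g) X (fun x hx => (hX x hx).2) c (by
    intro x hx y hy hxy
    obtain ⟨h2, h3⟩ := hc x (hX x hx).1 y (hX y hy).1 hxy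
    exact ⟨sep _ h2, sep _ h3⟩)
  rw [hdim, h.fixdim] at h1
  have h2 : (X.card : ℝ) ≤ Nat.card ι *
      ((2 * s + 1) * kissing (n - s) + (2 * (n - s : ℕ) + 1) * kissing s) := by
    exact_mod_cast h1
  exact h2.trans (mul_le_mul_of_nonneg_right hcard (by positivity))

end Pool.Agent.TH856.KL
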