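import Pool.Agent.TH856.KL.Geom

/-! Unit vectors whose differences have projections `0` or of length at least `1` on the members of
an orthogonal decomposition of `ℝⁿ`. -/

set_option autoImplicit false

namespace Pool.Agent.TH856.KL

open scoped InnerProductSpace
open Pool.Agent.H818R2 Pool.Agent.H161R2.KissSym

theorem kissing_mono {a b : ℕ} (h : a ≤ b) : kissing a ≤ kissing b :=
  sphMax_mono (by rw [sin_kiss]; norm_num) h

section
variable {n m : ℕ} (V : Fin m → Submodule ℝ (EuclideanSpace ℝ (Fin n)))

theorem fiber_card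
    (hsum : ∀ x, ∑ i, (V i).starProjection x = x)
    (hnorm : ∀ x, ‖x‖ ^ 2 = ∑ i, ‖(V i).starProjection x‖ ^ 2)
    (K : ℕ) (hK : ∀ i, Module.finrank ℝ (V i) ≤ K)
    (F : Finset (EuclideanSpace ℝ (Fin n))) (h1 : ∀ x ∈ F, ‖x‖ = 1)
    (hV : ∀ x ∈ F, ∀ y ∈ F, ∀ i, (V i).starProjection (x - y) = 0 ∨
      1 ≤ ‖(V i).starProjection (x - y)‖)
    (J : Finset (Fin m)) (i0 : Fin m)
    (hJ : ∀ x ∈ F, ∀ i, i ∈ J ↔ 1 / 4 ≤ ‖(V i).starProjection x‖ ^ 2)
    (hmax : ∀ x ∈ F, ∀ i, ‖(V i).starProjection x‖ ≤ ‖(V i0).starProjection x‖) :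
    F.card ≤ (2 * n + 1) ^ 3 * kissing K := by
  classical
  rcases F.eq_empty_or_nonempty with hE | ⟨z, hz⟩
  · rw [hE]; simp
  have hle1 : ∀ x ∈ F, ∀ i, ‖(V i).starProjection x‖ ^ 2 ≤ 1 := by
    intro x hx i
    have h2 := hnorm x
    rw [h1 x hx] at h2
    have h3 : ‖(V i).starProjection x‖ ^ 2 ≤ ∑ i, ‖(V i).starProjection x‖ ^ 2 :=
      Finset.single_le_sum (f := fun i => ‖(V i).starProjection x‖ ^ 2)
        (fun i _ => sq_nonneg _) (Finset.mem_univ i)
    linarith
  -- the size of `J`
  have hJ4 : J.card ≤ 4 := by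
    have h2 := hnorm z
    rw [h1 z hz] at h2
    have h3 : (J.card : ℝ) * (1 / 4) ≤ ∑ i ∈ J, ‖(V i).starProjection z‖ ^ 2 := by
      rw [← nsmul_eq_mul, ← Finset.sum_const]
      exact Finset.sum_le_sum (fun i hi => (hJ z hz i).1 hi)
    have h4 : ∑ i ∈ J, ‖(V i).starProjection z‖ ^ 2 ≤ ∑ i, ‖(V i).starProjection z‖ ^ 2 :=
      Finset.sum_le_sum_of_subset_of_nonneg (Finset.subset_univ _) (fun _ _ _ => sq_nonneg _)
    have h5 : (J.card : ℝ) ≤ 4 := by norm_num at h2; linarith
    exact_mod_cast h5
  have hJ3 : (J.erase i0).card ≤ 3 := by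
    rcases J.eq_empty_or_nonempty with hJe | ⟨j, hj⟩
    · rw [hJe]; simp
    · have h2 : i0 ∈ J := by
        rw [hJ z hz]
        have h3 := (hJ z hz j).1 hj
        have h4 := hmax z hz j
        have h5 := norm_nonneg ((V j).starProjection z)
        nlinarith
      rw [Finset.card_erase_of_mem h2]
      omega
  set q : EuclideanSpace ℝ (Fin n) → Fin m → EuclideanSpace ℝ (Fin n) :=
    fun x i => if i = i0 then 0 else (V i).starProjection x with hq
  have hG : (F.image q).card ≤ (2 * n + 1) ^ 3 := by
    have hsub : F.image q ⊆ Fintype.piFinset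
        (fun i => if i = i0 then {0} else F.image (V i).starProjection) := by
      intro f hf
      obtain ⟨x, hx, rfl⟩ := Finset.mem_image.1 hf
      rw [Fintype.mem_piFinset]
      intro i
      simp only [hq]
      split_ifs with h
      · exact Finset.mem_singleton_self _
      · exact Finset.mem_image_of_mem _ hx
    refine (Finset.card_le_card hsub).trans ?_
    rw [Fintype.card_piFinset]
    have hb : ∀ i, (if i = i0 then ({0} : Finset (EuclideanSpace ℝ (Fin n)))
        else F.image (V i).starProjection).card ≤ if i ∈ J.erase i0 then 2 * n + 1 else 1 := by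
      intro i
      by_cases hi0 : i = i0
      · rw [if_pos hi0, if_neg (by simp [hi0])]
        simp
      · rw [if_neg hi0]
        by_cases hiJ : i ∈ J
        · rw [if_pos (Finset.mem_erase.2 ⟨hi0, hiJ⟩)]
          have h2 : (F.image (V i).starProjection).card ≤ 2 * Module.finrank ℝ (V i) + 1 := by
            apply short_card
            · intro a ha
              obtain ⟨x, hx, rfl⟩ := Finset.mem_image.1 ha
              exact Submodule.starProjection_apply_mem _ _
            · intro a ha
              obtain ⟨x, hx, rfl⟩ := Finset.mem_image.1 ha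
              have h3 := hnorm x
              rw [h1 x hx] at h3
              have h4 : ∑ j ∈ ({i, i0} : Finset (Fin m)), ‖(V j).starProjection x‖ ^ 2 ≤
                  ∑ j, ‖(V j).starProjection x‖ ^ 2 :=
                Finset.sum_le_sum_of_subset_of_nonneg (Finset.subset_univ _)
                  (fun _ _ _ => sq_nonneg _)
              rw [Finset.sum_pair hi0] at h4
              have h5 := hmax x hx i
              have h6 := norm_nonneg ((V i).starProjection x)
              nlinarith
            · intro a ha b hb hab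
              obtain ⟨x, hx, rfl⟩ := Finset.mem_image.1 ha
              obtain ⟨y, hy, rfl⟩ := Finset.mem_image.1 hb
              rw [← map_sub]
              rcases hV x hx y hy i with h | h
              · exfalso
                rw [map_sub, sub_eq_zero] at h
                exact hab h
              · exact h
          have h3 : Module.finrank ℝ (V i) ≤ n := by
            have := Submodule.finrank_le (V i)
            rwa [finrank_euclideanSpace_fin] at this
          omega
        · rw [if_neg (fun h => hiJ (Finset.mem_erase.1 h).2), Finset.card_le_one]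
          intro a ha b hb
          obtain ⟨x, hx, rfl⟩ := Finset.mem_image.1 ha
          obtain ⟨y, hy, rfl⟩ := Finset.mem_image.1 hb
          have hx4 : ‖(V i).starProjection x‖ ^ 2 < 1 / 4 := by
            rw [← not_le, ← hJ x hx]; exact hiJ
          have hy4 : ‖(V i).starProjection y‖ ^ 2 < 1 / 4 := by
            rw [← not_le, ← hJ y hy]; exact hiJ
          have hx2 : ‖(V i).starProjection x‖ < 1 / 2 := by
            nlinarith [norm_nonneg ((V i).starProjection x)]
          have hy2 : ‖(V i).starProjection y‖ < 1 / 2 := by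
            nlinarith [norm_nonneg ((V i).starProjection y)]
          rcases hV x hx y hy i with h | h
          · rw [map_sub, sub_eq_zero] at h
            exact h
          · exfalso
            rw [map_sub] at h
            have := norm_sub_le ((V i).starProjection x) ((V i).starProjection y)
            linarith
    calc ∏ i, (if i = i0 then ({0} : Finset (EuclideanSpace ℝ (Fin n)))
        else F.image (V i).starProjection).card
        ≤ ∏ i, (if i ∈ J.erase i0 then 2 * n + 1 else 1) :=
          Finset.prod_le_prod' (fun i _ => hb i)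
      _ = (2 * n + 1) ^ (J.erase i0).card := by
          rw [Finset.prod_ite_mem, Finset.univ_inter, Finset.prod_const]
      _ ≤ (2 * n + 1) ^ 3 := Nat.pow_le_pow_right (by omega) hJ3
  have hfib : ∀ f ∈ F.image q, (F.filter (fun x => q x = f)).card ≤ kissing K := by
    intro f hf
    obtain ⟨x0, hx0, rfl⟩ := Finset.mem_image.1 hf
    set S := F.filter (fun x => q x = q x0) with hS
    have hrest : ∀ x ∈ S, ∀ i, i ≠ i0 → (V i).starProjection x = (V i).starProjection x0 := by
      intro x hx i hi
      have h2 := congrFun (Finset.mem_filter.1 hx).2 i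
      simp only [hq, if_neg hi] at h2
      exact h2
    have hinj : Set.InjOn (V i0).starProjection S := by
      intro x hx y hy hxy
      rw [← hsum x, ← hsum y]
      apply Finset.sum_congr rfl
      intro i _
      by_cases hi : i = i0
      · rw [hi]; exact hxy
      · rw [hrest x (Finset.mem_coe.1 hx) i hi, hrest y (Finset.mem_coe.1 hy) i hi]
    have hρ0 : 0 < ‖(V i0).starProjection x0‖ := by
      rcases (norm_nonneg ((V i0).starProjection x0)).eq_or_lt with h | h
      · exfalso
        have h2 : ∀ i, (V i).starProjection x0 = 0 := by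
          intro i
          have h3 := hmax x0 hx0 i
          rw [← h] at h3
          exact norm_le_zero_iff.1 h3
        have h4 := hsum x0
        rw [Finset.sum_eq_zero (fun i _ => h2 i)] at h4
        have h5 := h1 x0 hx0
        rw [← h4, norm_zero] at h5
        exact zero_ne_one h5
      · exact h
    rw [← Finset.card_image_of_injOn hinj]
    refine (sphere_card (V i0) _ ?_ ‖(V i0).starProjection x0‖ hρ0 ?_ ?_ ?_).trans
      (kissing_mono (hK i0))
    · intro b hb
      obtain ⟨x, hx, rfl⟩ := Finset.mem_image.1 hb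
      exact Submodule.starProjection_apply_mem _ _
    · have h2 := hle1 x0 hx0 i0
      nlinarith
    · intro b hb
      obtain ⟨x, hx, rfl⟩ := Finset.mem_image.1 hb
      have hxF := (Finset.mem_filter.1 hx).1
      have h2 := hnorm x
      have h3 := hnorm x0
      rw [h1 x hxF, ← Finset.add_sum_erase _ _ (Finset.mem_univ i0)] at h2
      rw [h1 x0 hx0, ← Finset.add_sum_erase _ _ (Finset.mem_univ i0)] at h3
      have h4 : ∑ i ∈ Finset.univ.erase i0, ‖(V i).starProjection x‖ ^ 2 =
          ∑ i ∈ Finset.univ.erase i0, ‖(V i).starProjection x0‖ ^ 2 :=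
        Finset.sum_congr rfl (fun i hi => by rw [hrest x hx i (Finset.mem_erase.1 hi).1])
      rw [h4] at h2
      have h5 : ‖(V i0).starProjection x‖ ^ 2 = ‖(V i0).starProjection x0‖ ^ 2 := by linarith
      exact (pow_left_inj₀ (norm_nonneg _) (norm_nonneg _) two_ne_zero).1 h5
    · intro b hb c hc hbc
      obtain ⟨x, hx, rfl⟩ := Finset.mem_image.1 hb
      obtain ⟨y, hy, rfl⟩ := Finset.mem_image.1 hc
      rw [← map_sub]
      rcases hV x (Finset.mem_filter.1 hx).1 y (Finset.mem_filter.1 hy).1 i0 with h | h
      · exfalso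
        rw [map_sub, sub_eq_zero] at h
        exact hbc h
      · exact h
  calc F.card ≤ kissing K * (F.image q).card := Finset.card_le_mul_card_image _ _ hfib
    _ ≤ kissing K * (2 * n + 1) ^ 3 := Nat.mul_le_mul_left _ hG
    _ = _ := mul_comm _ _

theorem multi_card
    (hsum : ∀ x, ∑ i, (V i).starProjection x = x)
    (hnorm : ∀ x, ‖x‖ ^ 2 = ∑ i, ‖(V i).starProjection x‖ ^ 2)
    (K : ℕ) (hK : ∀ i, Module.finrank ℝ (V i) ≤ K)
    (X : Finset (EuclideanSpace ℝ (Fin n))) (h1 : ∀ x ∈ X, ‖x‖ = 1)
    {ι : Type*} [Finite ι] (c : EuclideanSpace ℝ (Fin n) → ι)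
    (hc : ∀ x ∈ X, ∀ y ∈ X, c x = c y → ∀ i, (V i).starProjection (x - y) = 0 ∨
      1 ≤ ‖(V i).starProjection (x - y)‖) :
    X.card ≤ Nat.card ι * ((m + 1) ^ 5 * (2 * n + 1) ^ 3 * kissing K) := by
  classical
  have := Fintype.ofFinite ι
  rcases X.eq_empty_or_nonempty with hE | ⟨z, hz⟩
  · rw [hE]; simp
  have hne : Nonempty (Fin m) := by
    by_contra hcon
    rw [not_nonempty_iff] at hcon
    have h2 := hsum z
    rw [Finset.univ_eq_empty, Finset.sum_empty] at h2
    have h3 := h1 z hz
    rw [← h2, norm_zero] at h3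
    exact zero_ne_one h3
  have hex : ∀ x : EuclideanSpace ℝ (Fin n), ∃ i0 : Fin m, ∀ i,
      ‖(V i).starProjection x‖ ≤ ‖(V i0).starProjection x‖ := fun x => Finite.exists_max _
  choose t ht using hex
  set J : EuclideanSpace ℝ (Fin n) → Finset (Fin m) :=
    fun x => Finset.univ.filter (fun i => 1 / 4 ≤ ‖(V i).starProjection x‖ ^ 2) with hJ
  have hJ4 : ∀ x ∈ X, (J x).card ≤ 4 := by
    intro x hx
    have h2 := hnorm x
    rw [h1 x hx] at h2
    have h3 : ((J x).card : ℝ) * (1 / 4) ≤ ∑ i ∈ J x, ‖(V i).starProjection x‖ ^ 2 := by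
      rw [← nsmul_eq_mul, ← Finset.sum_const]
      exact Finset.sum_le_sum (fun i hi => (Finset.mem_filter.1 hi).2)
    have h4 : ∑ i ∈ J x, ‖(V i).starProjection x‖ ^ 2 ≤ ∑ i, ‖(V i).starProjection x‖ ^ 2 :=
      Finset.sum_le_sum_of_subset_of_nonneg (Finset.subset_univ _) (fun _ _ _ => sq_nonneg _)
    have h5 : ((J x).card : ℝ) ≤ 4 := by norm_num at h2; linarith
    exact_mod_cast h5
  set key : EuclideanSpace ℝ (Fin n) → ι × (Finset (Fin m) × Fin m) :=
    fun x => (c x, (J x, t x)) with hkey
  set B := (2 * n + 1) ^ 3 * kissing K with hB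
  have h2 : X.card ≤ B * (X.image key).card := by
    apply Finset.card_le_mul_card_image
    rintro ⟨a, T, i0⟩ _
    have hmem : ∀ x ∈ X.filter (fun x => key x = (a, T, i0)), x ∈ X ∧ c x = a ∧ J x = T ∧
        t x = i0 := by
      intro x hx
      obtain ⟨hxX, hxk⟩ := Finset.mem_filter.1 hx
      simp only [hkey, Prod.mk.injEq] at hxk
      exact ⟨hxX, hxk.1, hxk.2.1, hxk.2.2⟩
    apply fiber_card V hsum hnorm K hK _ _ _ T i0
    · intro x hx i
      rw [← (hmem x hx).2.2.1]
      simp [hJ]
    · intro x hx i
      rw [← (hmem x hx).2.2.2]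
      exact ht x i
    · exact fun x hx => h1 x (hmem x hx).1
    · intro x hx y hy i
      exact hc x (hmem x hx).1 y (hmem y hy).1 ((hmem x hx).2.1.trans (hmem y hy).2.1.symm) i
  have h3 : (X.image key).card ≤ Nat.card ι * ((m + 1) ^ 4 * m) := by
    have hsub : X.image key ⊆ (Finset.univ : Finset ι) ×ˢ
        (((Finset.univ : Finset (Finset (Fin m))).filter (fun J => J.card ≤ 4)) ×ˢ
          (Finset.univ : Finset (Fin m))) := by
      intro f hf
      obtain ⟨x, hx, rfl⟩ := Finset.mem_image.1 hf
      rw [Finset.mem_product, Finset.mem_product]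
      exact ⟨Finset.mem_univ _, Finset.mem_filter.2 ⟨Finset.mem_univ _, hJ4 x hx⟩,
        Finset.mem_univ _⟩
    refine (Finset.card_le_card hsub).trans ?_
    rw [Finset.card_product, Finset.card_product, Finset.card_univ, Finset.card_univ,
      Fintype.card_fin, Nat.card_eq_fintype_card]
    exact Nat.mul_le_mul_left _ (Nat.mul_le_mul_right _ (card_small m 4))
  calc X.card ≤ B * (X.image key).card := h2
    _ ≤ B * (Nat.card ι * ((m + 1) ^ 4 * m)) := Nat.mul_le_mul_left _ h3
    _ ≤ B * (Nat.card ι * ((m + 1) ^ 4 * (m + 1))) := by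
        apply Nat.mul_le_mul_left
        apply Nat.mul_le_mul_left
        exact Nat.mul_le_mul_left _ (Nat.le_succ m)
    _ = Nat.card ι * ((m + 1) ^ 5 * (2 * n + 1) ^ 3 * kissing K) := by
        rw [hB]; ring

end

end Pool.Agent.TH856.KL
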