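import Pool.Agent.TH856.KL.Defs
import Pool.Agent.TH856.KL.Index
import Pool.Agent.TH856.KL.Multi

/-! The inequalities (1)-(3). -/

set_option autoImplicit false

open Filter

namespace Pool.Agent.TH856.KL

open scoped InnerProductSpace
open Module Submodule
open Pool.Agent.H818R2 Pool.Agent.H161R2.KissSym Pool.Agent.TH856.SP Pool.Agent.W967.LI

section
variable {n m : ℕ} (V : Fin m → Submodule ℝ (EuclideanSpace ℝ (Fin n)))

theorem norm_of_sum (hsum : ∀ x, ∑ i, (V i).starProjection x = x) (x : EuclideanSpace ℝ (Fin n)) :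
    ‖x‖ ^ 2 = ∑ i, ‖(V i).starProjection x‖ ^ 2 := by
  have h0 : ∀ i, ⟪x, (V i).starProjection x⟫_ℝ = ‖(V i).starProjection x‖ ^ 2 := by
    intro i
    have h := Submodule.starProjection_inner_eq_zero (K := V i) x ((V i).starProjection x)
      (Submodule.starProjection_apply_mem _ _)
    rw [inner_sub_left, real_inner_self_eq_norm_sq] at h
    linarith
  have h1 : ⟪x, ∑ i, (V i).starProjection x⟫_ℝ = ∑ i, ‖(V i).starProjection x‖ ^ 2 := by
    rw [inner_sum]
    exact Finset.sum_congr rfl (fun i _ => h0 i)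
  rw [hsum, real_inner_self_eq_norm_sq] at h1
  exact h1

theorem resid (orth : ∀ i j, i ≠ j → V i ⟂ V j) (x : EuclideanSpace ℝ (Fin n)) (j : Fin m) :
    x - ∑ i, (V i).starProjection x ∈ (V j)ᗮ := by
  classical
  rw [Submodule.mem_orthogonal]
  intro w hw
  rw [inner_sub_right, inner_sum, Finset.sum_eq_single j]
  · have h := Submodule.starProjection_inner_eq_zero (K := V j) x w hw
    rw [inner_sub_left, real_inner_comm w x, real_inner_comm w] at h
    linarith
  · intro i _ hij
    have h := orth j i (Ne.symm hij)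
    rw [Submodule.isOrtho_iff_inner_eq] at h
    exact h w hw _ (Submodule.starProjection_apply_mem _ _)
  · intro h; exact absurd (Finset.mem_univ j) h

theorem sum_of_split (orth : ∀ i j, i ≠ j → V i ⟂ V j) (span : ⨆ i, V i = ⊤)
    (x : EuclideanSpace ℝ (Fin n)) : ∑ i, (V i).starProjection x = x := by
  have h1 : x - ∑ i, (V i).starProjection x ∈ (⨆ i, V i)ᗮ := by
    rw [← Submodule.iInf_orthogonal, Submodule.mem_iInf]
    exact fun j => resid V orth x j
  rw [span, Submodule.top_orthogonal_eq_bot, Submodule.mem_bot, sub_eq_zero] at h1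
  exact h1.symm

theorem proj_mem (orth : ∀ i j, i ≠ j → V i ⟂ V j)
    (Λ : Submodule ℤ (EuclideanSpace ℝ (Fin n))) (z : EuclideanSpace ℝ (Fin n))
    (hz : z ∈ ⨆ i, Λ ⊓ (V i).restrictScalars ℤ) (i : Fin m) : (V i).starProjection z ∈ Λ := by
  induction hz using Submodule.iSup_induction' with
  | mem j z hz =>
    obtain ⟨h1, h2⟩ := Submodule.mem_inf.1 hz
    have h3 : z ∈ V j := h2
    by_cases hij : i = j
    · rw [hij, Submodule.starProjection_eq_self_iff.2 h3]
      exact h1
    · have h4 : (V i).starProjection z = 0 := by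
        rw [Submodule.starProjection_apply_eq_zero_iff, Submodule.mem_orthogonal]
        intro w hw
        have h := orth i j hij
        rw [Submodule.isOrtho_iff_inner_eq] at h
        exact h w hw z h3
      rw [h4]
      exact Λ.zero_mem
  | zero => rw [map_zero]; exact Λ.zero_mem
  | add x y _ _ hx hy => rw [map_add]; exact Λ.add_mem hx hy

end

theorem gluing : Gluing := by
  classical
  intro n m K Λ V X sep hV hI hX
  have hsum := sum_of_split V hV.orth hV.span
  have hsep : ∀ z ∈ Λ, z = 0 ∨ 1 ≤ ‖z‖ := by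
    intro z hz
    by_cases h0 : z = 0
    · exact Or.inl h0
    · exact Or.inr (sep z hz h0)
  set M : Submodule ℤ (EuclideanSpace ℝ (Fin n)) := ⨆ i, Λ ⊓ (V i).restrictScalars ℤ with hM
  have hcard : splitIndex Λ V =
      Nat.card (Λ.toAddSubgroup ⧸ (M.toAddSubgroup.addSubgroupOf Λ.toAddSubgroup)) := rfl
  have hfin : Finite (Λ.toAddSubgroup ⧸ (M.toAddSubgroup.addSubgroupOf Λ.toAddSubgroup)) := by
    apply Nat.finite_of_card_ne_zero
    rw [← hcard]
    exact hI
  let c : EuclideanSpace ℝ (Fin n) →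
      (Λ.toAddSubgroup ⧸ (M.toAddSubgroup.addSubgroupOf Λ.toAddSubgroup)) := fun x =>
    if hx : x ∈ Λ.toAddSubgroup then QuotientAddGroup.mk ⟨x, hx⟩ else QuotientAddGroup.mk 0
  rw [hcard]
  apply multi_card V hsum (norm_of_sum V hsum) K hV.dim X (fun x hx => (hX x hx).2) c
  intro x hx y hy hxy i
  have hx' : x ∈ Λ.toAddSubgroup := (hX x hx).1
  have hy' : y ∈ Λ.toAddSubgroup := (hX y hy).1
  simp only [c, dif_pos hx', dif_pos hy'] at hxy
  rw [QuotientAddGroup.eq, AddSubgroup.mem_addSubgroupOf] at hxy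
  have h1 : -x + y ∈ M := hxy
  have h2 : x - y ∈ M := by
    have h3 := M.neg_mem h1
    have h4 : -(-x + y) = x - y := by abel
    rw [h4] at h3
    exact h3
  exact hsep _ (proj_mem V hV.orth Λ _ h2 i)

theorem autIneq : AutIneq := by
  classical
  intro n m K Λ g D X hA hb hX
  have hsep : ∀ z ∈ Λ, z = 0 ∨ 1 ≤ ‖z‖ := by
    intro z hz
    by_cases h0 : z = 0
    · exact Or.inl h0
    · exact Or.inr (hA.pack.sep z hz h0)
  set F : Submodule ℝ (EuclideanSpace ℝ (Fin n)) := ⨅ i, fixSpace (g i) with hF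
  set V : Fin (m + 1) → Submodule ℝ (EuclideanSpace ℝ (Fin n)) :=
    Fin.cons F (fun i => (fixSpace (g i))ᗮ) with hV
  have hres := resid (fun i => (fixSpace (g i))ᗮ) hA.orth
  have hPF : ∀ x, F.starProjection x = x - ∑ i, ((fixSpace (g i))ᗮ).starProjection x := by
    intro x
    apply Submodule.eq_starProjection_of_mem_orthogonal
    · rw [hF, Submodule.mem_iInf]
      intro i
      have h1 := hres x i
      rw [Submodule.orthogonal_orthogonal] at h1
      exact h1
    · rw [sub_sub_cancel]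
      apply Submodule.sum_mem
      intro i _
      have h2 : (fixSpace (g i))ᗮ ≤ Fᗮ := Submodule.orthogonal_le (iInf_le _ i)
      exact h2 (Submodule.starProjection_apply_mem _ _)
  have hsum : ∀ x, ∑ i, (V i).starProjection x = x := by
    intro x
    rw [Fin.sum_univ_succ]
    simp only [hV, Fin.cons_zero, Fin.cons_succ]
    rw [hPF]
    abel
  have hK : ∀ i, Module.finrank ℝ (V i) ≤ K := by
    intro i
    refine Fin.cases ?_ (fun j => ?_) i
    · exact hA.fixed
    · exact hA.moved j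
  have hcl : ∀ i, ∃ (ι : Type) (_ : Finite ι) (c : EuclideanSpace ℝ (Fin n) → ι),
      (Nat.card ι : ℝ) ≤ D ^ (Module.finrank ℝ (fixSpace (g i))ᗮ) ∧
      ∀ x ∈ Λ, ∀ y ∈ Λ, c x = c y → (fixSpace (g i))ᗮ.starProjection (x - y) ∈ Λ := by
    intro i
    obtain ⟨ι, hι, c, h1, h2⟩ := classes Λ 1 (g i) ⟨hA.pack, hA.pres i, rfl⟩ D (hb i)
    have hdim : finrank ℝ (fixSpace (g i))ᗮ = n - finrank ℝ (fixSpace (g i)) := by
      have := Submodule.finrank_add_finrank_orthogonal (fixSpace (g i))
      rw [finrank_euclideanSpace_fin] at this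
      omega
    rw [← hdim] at h1
    exact ⟨ι, hι, c, h1, fun x hx y hy hxy => (h2 x hx y hy hxy).2⟩
  choose ι hι c hc1 hc2 using hcl
  have h1 := multi_card V hsum (norm_of_sum V hsum) K hK X (fun x hx => (hX x hx).2)
    (fun x => fun i => c i x) (by
      intro x hx y hy hxy
      have h2 : ∀ i, ((fixSpace (g i))ᗮ).starProjection (x - y) ∈ Λ := fun i =>
        hc2 i x (hX x hx).1 y (hX y hy).1 (congrFun hxy i)
      intro i
      apply hsep
      refine Fin.cases ?_ (fun j => ?_) i
      · simp only [hV, Fin.cons_zero]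
        rw [hPF]
        exact Λ.sub_mem (Λ.sub_mem (hX x hx).1 (hX y hy).1) (Submodule.sum_mem _ (fun i _ => h2 i))
      · simp only [hV, Fin.cons_succ]
        exact h2 j)
  have hcard : (Nat.card (∀ i, ι i) : ℝ) ≤ D ^ (∑ i, Module.finrank ℝ (fixSpace (g i))ᗮ) := by
    rw [Nat.card_pi, Nat.cast_prod, ← Finset.prod_pow_eq_pow_sum]
    exact Finset.prod_le_prod (fun i _ => Nat.cast_nonneg _) (fun i _ => hc1 i)
  have h2 : (X.card : ℝ) ≤ Nat.card (∀ i, ι i) *
      ((m + 2) ^ 5 * (2 * n + 1) ^ 3 * kissing K) := by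
    have h3 : ((m + 1 + 1) ^ 5 * (2 * n + 1) ^ 3 * kissing K : ℕ) =
      (m + 2) ^ 5 * (2 * n + 1) ^ 3 * kissing K := by ring
    rw [h3] at h1
    exact_mod_cast h1
  exact h2.trans (mul_le_mul_of_nonneg_right hcard (by positivity))

theorem oneIneq : OneIneq :=
  ⟨fun _ _ Λ g D X h hb hX => kiss_aut Λ g h D hb X hX, fun _ _ g hp hg => base_prime g hp hg⟩

end Pool.Agent.TH856.KL
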