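import Mathlib

/-! Nonzero vectors with pairwise nonpositive inner products in dimension `k`: at most `2 k`. -/

set_option autoImplicit false

namespace Pool.Agent.TH856.KL

open scoped InnerProductSpace

variable {V : Type*} [NormedAddCommGroup V] [InnerProductSpace ℝ V] [FiniteDimensional ℝ V]

theorem obtuse_card : ∀ (k : ℕ) (W : Submodule ℝ V), Module.finrank ℝ W = k →
    ∀ A : Finset V, (∀ a ∈ A, a ∈ W) → (∀ a ∈ A, a ≠ 0) →
      (∀ a ∈ A, ∀ b ∈ A, a ≠ b → ⟪a, b⟫_ℝ ≤ 0) → A.card ≤ 2 * k := by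
  classical
  intro k
  induction k with
  | zero =>
    intro W hW A hA h0 _
    have hbot : W = ⊥ := Submodule.finrank_eq_zero.1 hW
    have : A = ∅ := by
      by_contra hne
      obtain ⟨a, ha⟩ := Finset.nonempty_iff_ne_empty.2 hne
      have := hA a ha
      rw [hbot, Submodule.mem_bot] at this
      exact h0 a ha this
    rw [this]; simp
  | succ k ih =>
    intro W hW A hA h0 hin
    rcases A.eq_empty_or_nonempty with hE | ⟨v, hv⟩
    · rw [hE]; simp
    have hv0 := h0 v hv
    have hvn : 0 < ⟪v, v⟫_ℝ := real_inner_self_pos.2 hv0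
    set c : V → ℝ := fun x => ⟪v, x⟫_ℝ / ⟪v, v⟫_ℝ with hc
    set π : V → V := fun x => x - c x • v with hπ
    have hπv : ∀ x, ⟪v, π x⟫_ℝ = 0 := by
      intro x
      simp only [hπ, hc, inner_sub_right, inner_smul_right]
      field_simp
      ring
    have hππ : ∀ x y, ⟪π x, π y⟫_ℝ = ⟪x, y⟫_ℝ - ⟪v, x⟫_ℝ * ⟪v, y⟫_ℝ / ⟪v, v⟫_ℝ := by
      intro x y
      have h1 : ⟪π x, π y⟫_ℝ = ⟪x, π y⟫_ℝ := by
        conv_lhs => rw [show π x = x - c x • v from rfl]
        rw [inner_sub_left, inner_smul_left, hπv]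
        simp
      rw [h1]
      simp only [hπ, hc, inner_sub_right, inner_smul_right]
      rw [real_inner_comm x v]
      ring
    set W' : Submodule ℝ V := W ⊓ (ℝ ∙ v)ᗮ with hW'
    have hvW : v ∈ W := hA v hv
    have hdim : Module.finrank ℝ W' = k := by
      have h1 : (ℝ ∙ v) ≤ W := (Submodule.span_singleton_le_iff_mem v W).2 hvW
      have h2 := Submodule.finrank_add_inf_finrank_orthogonal h1
      rw [hW, finrank_span_singleton hv0] at h2
      rw [hW', inf_comm]
      omega
    have hmem : ∀ x ∈ W, π x ∈ W' := by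
      intro x hx
      refine ⟨W.sub_mem hx (W.smul_mem _ hvW), ?_⟩
      exact Submodule.mem_orthogonal_singleton_iff_inner_right.2 (hπv x)
    set B := (A.erase v).filter (fun x => π x ≠ 0) with hB
    set C := (A.erase v).filter (fun x => ¬ π x ≠ 0) with hC
    have hBC : B.card + C.card = (A.erase v).card := Finset.card_filter_add_card_filter_not _
    have hinj : Set.InjOn π B := by
      intro x hx y hy hxy
      by_contra hne
      have hx' := Finset.mem_filter.1 (Finset.mem_coe.1 hx)
      have hy' := Finset.mem_filter.1 (Finset.mem_coe.1 hy)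
      have hxe := Finset.mem_erase.1 hx'.1
      have hye := Finset.mem_erase.1 hy'.1
      have h1 : 0 < ⟪π x, π y⟫_ℝ := by
        rw [← hxy]
        exact real_inner_self_pos.2 hx'.2
      rw [hππ] at h1
      have h2 := hin x hxe.2 y hye.2 hne
      have h3 := hin v hv x hxe.2 (Ne.symm hxe.1)
      have h4 := hin v hv y hye.2 (Ne.symm hye.1)
      have h5 : 0 ≤ ⟪v, x⟫_ℝ * ⟪v, y⟫_ℝ / ⟪v, v⟫_ℝ :=
        div_nonneg (mul_nonneg_of_nonpos_of_nonpos h3 h4) hvn.le
      linarith
    have hcardB : B.card ≤ 2 * k := by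
      rw [← Finset.card_image_of_injOn hinj]
      apply ih W' hdim
      · intro a ha
        obtain ⟨x, hx, rfl⟩ := Finset.mem_image.1 ha
        exact hmem x (hA x (Finset.mem_erase.1 (Finset.mem_filter.1 hx).1).2)
      · intro a ha
        obtain ⟨x, hx, rfl⟩ := Finset.mem_image.1 ha
        exact (Finset.mem_filter.1 hx).2
      · intro a ha b hb hab
        obtain ⟨x, hx, rfl⟩ := Finset.mem_image.1 ha
        obtain ⟨y, hy, rfl⟩ := Finset.mem_image.1 hb
        have hxe := Finset.mem_erase.1 (Finset.mem_filter.1 hx).1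
        have hye := Finset.mem_erase.1 (Finset.mem_filter.1 hy).1
        have hne : x ≠ y := fun h => hab (by rw [h])
        rw [hππ]
        have h2 := hin x hxe.2 y hye.2 hne
        have h3 := hin v hv x hxe.2 (Ne.symm hxe.1)
        have h4 := hin v hv y hye.2 (Ne.symm hye.1)
        have h5 : 0 ≤ ⟪v, x⟫_ℝ * ⟪v, y⟫_ℝ / ⟪v, v⟫_ℝ :=
          div_nonneg (mul_nonneg_of_nonpos_of_nonpos h3 h4) hvn.le
        linarith
    have hcardC : C.card ≤ 1 := by
      rw [Finset.card_le_one]
      intro x hx y hy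
      by_contra hne
      have hx' := Finset.mem_filter.1 hx
      have hy' := Finset.mem_filter.1 hy
      have hxe := Finset.mem_erase.1 hx'.1
      have hye := Finset.mem_erase.1 hy'.1
      have ex : π x = 0 := not_not.1 hx'.2
      have ey : π y = 0 := not_not.1 hy'.2
      have h1 := hππ x y
      have h1x := hππ x x
      have h1y := hππ y y
      rw [ex, ey, inner_zero_left] at h1
      rw [ex, inner_zero_left] at h1x
      rw [ey, inner_zero_left] at h1y
      have h2 := hin x hxe.2 y hye.2 hne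
      have h3 := hin v hv x hxe.2 (Ne.symm hxe.1)
      have h4 := hin v hv y hye.2 (Ne.symm hye.1)
      have h6 : 0 < ⟪x, x⟫_ℝ := real_inner_self_pos.2 (h0 x hxe.2)
      have h7 : 0 < ⟪y, y⟫_ℝ := real_inner_self_pos.2 (h0 y hye.2)
      have h3' : ⟪v, x⟫_ℝ < 0 := by
        refine lt_of_le_of_ne h3 (fun h => ?_)
        rw [h] at h1x
        simp only [mul_zero, zero_div, sub_zero] at h1x
        linarith
      have h4' : ⟪v, y⟫_ℝ < 0 := by
        refine lt_of_le_of_ne h4 (fun h => ?_)
        rw [h] at h1y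
        simp only [mul_zero, zero_div, sub_zero] at h1y
        linarith
      have h5 : 0 < ⟪v, x⟫_ℝ * ⟪v, y⟫_ℝ / ⟪v, v⟫_ℝ :=
        div_pos (mul_pos_of_neg_of_neg h3' h4') hvn
      linarith
    have h1 : A.card = (A.erase v).card + 1 := by
      rw [Finset.card_erase_of_mem hv]
      have := Finset.card_pos.2 ⟨v, hv⟩
      omega
    omega

end Pool.Agent.TH856.KL
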